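import Mathlib

set_option autoImplicit false

namespace Pool.Agent.Results.MP_4595ea_al.Counterexample

/-- Centrally essential rings. -/
def CentrallyEssential (R : Type) [Ring R] : Prop :=
  ∀ a : R, a ≠ 0 → ∃ x y : R, x ∈ Subring.center R ∧ y ∈ Subring.center R ∧
    x ≠ 0 ∧ y ≠ 0 ∧ a * x = y

/-- Essential right ideals. -/
def EssentialRight {R : Type} [Ring R] (I : Submodule Rᵐᵒᵖ R) : Prop :=
  ∀ J : Submodule Rᵐᵒᵖ R, J ≠ ⊥ → I ⊓ J ≠ ⊥

@[ext] structure T where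
  n : ℤ
  x : ℤ
  y : ℤ
  z : ℤ
  xy : ℤ
  xz : ℤ
  yz : ℤ
  t : ℤ

instance : Add T := ⟨fun a b => ⟨a.n + b.n, a.x + b.x, a.y + b.y, a.z + b.z, a.xy + b.xy,
  a.xz + b.xz, a.yz + b.yz, a.t + b.t⟩⟩
instance : Neg T := ⟨fun a => ⟨-a.n, -a.x, -a.y, -a.z, -a.xy, -a.xz, -a.yz, -a.t⟩⟩
instance : Zero T := ⟨⟨0, 0, 0, 0, 0, 0, 0, 0⟩⟩
instance : One T := ⟨⟨1, 0, 0, 0, 0, 0, 0, 0⟩⟩
instance : Mul T := ⟨fun a b => ⟨a.n * b.n, a.n * b.x + a.x * b.n, a.n * b.y + a.y * b.n,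
  a.n * b.z + a.z * b.n,
  a.n * b.xy + a.xy * b.n + a.x * b.y - a.y * b.x,
  a.n * b.xz + a.xz * b.n + a.x * b.z - a.z * b.x,
  a.n * b.yz + a.yz * b.n + a.y * b.z - a.z * b.y,
  a.n * b.t + a.t * b.n + a.x * b.yz + a.yz * b.x - a.y * b.xz - a.xz * b.y
    + a.z * b.xy + a.xy * b.z⟩⟩

theorem add_def (a b : T) : a + b = ⟨a.n + b.n, a.x + b.x, a.y + b.y, a.z + b.z, a.xy + b.xy,
  a.xz + b.xz, a.yz + b.yz, a.t + b.t⟩ := rfl
theorem neg_def (a : T) : -a = ⟨-a.n, -a.x, -a.y, -a.z, -a.xy, -a.xz, -a.yz, -a.t⟩ := rfl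
theorem zero_def : (0 : T) = ⟨0, 0, 0, 0, 0, 0, 0, 0⟩ := rfl
theorem one_def : (1 : T) = ⟨1, 0, 0, 0, 0, 0, 0, 0⟩ := rfl
theorem mul_def (a b : T) : a * b = ⟨a.n * b.n, a.n * b.x + a.x * b.n, a.n * b.y + a.y * b.n,
  a.n * b.z + a.z * b.n,
  a.n * b.xy + a.xy * b.n + a.x * b.y - a.y * b.x,
  a.n * b.xz + a.xz * b.n + a.x * b.z - a.z * b.x,
  a.n * b.yz + a.yz * b.n + a.y * b.z - a.z * b.y,
  a.n * b.t + a.t * b.n + a.x * b.yz + a.yz * b.x - a.y * b.xz - a.xz * b.y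
    + a.z * b.xy + a.xy * b.z⟩ := rfl

instance : Ring T := Ring.ofMinimalAxioms
  (by intro x y z; ext <;> simp only [add_def] <;> ring)
  (by intro x; ext <;> simp [add_def, zero_def])
  (by intro x; ext <;> simp [add_def, neg_def, zero_def])
  (by intro x y z; ext <;> simp only [mul_def] <;> ring)
  (by intro x; ext <;> simp [mul_def, one_def])
  (by intro x; ext <;> simp [mul_def, one_def])
  (by intro x y z; ext <;> simp only [add_def, mul_def] <;> ring)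
  (by intro x y z; ext <;> simp only [add_def, mul_def] <;> ring)

def toVec : T →+ (Fin 8 → ℤ) where
  toFun a := ![a.n, a.x, a.y, a.z, a.xy, a.xz, a.yz, a.t]
  map_zero' := by ext i; fin_cases i <;> rfl
  map_add' a b := by ext i; fin_cases i <;> rfl

theorem toVec_inj : Function.Injective toVec := by
  intro a b h
  ext
  exacts [congrFun h 0, congrFun h 1, congrFun h 2, congrFun h 3, congrFun h 4, congrFun h 5,
    congrFun h 6, congrFun h 7]

theorem central (a : T) (hx : a.x = 0) (hy : a.y = 0) (hz : a.z = 0) :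
    a ∈ Subring.center T := by
  rw [Subring.mem_center_iff]
  intro g
  ext <;> simp [mul_def, hx, hy, hz] <;> ring

/-- every nonzero element has a nonzero multiple by a central element that is a multiple of the
top class -/
theorem top_mul (a : T) (ha : a ≠ 0) : ∃ c : T, ∃ m : ℤ, m ≠ 0 ∧
    a * c = ⟨0, 0, 0, 0, 0, 0, 0, m⟩ ∧
    (c ∈ Subring.center T ∨ a ∈ Subring.center T) := by
  by_cases hn : a.n = 0
  swap
  · exact ⟨⟨0, 0, 0, 0, 0, 0, 0, 1⟩, a.n, hn, by ext <;> simp [mul_def],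
      Or.inl (central _ rfl rfl rfl)⟩
  by_cases hx : a.x = 0
  swap
  · exact ⟨⟨0, 0, 0, 0, 0, 0, 1, 0⟩, a.x, hx, by ext <;> simp [mul_def, hn],
      Or.inl (central _ rfl rfl rfl)⟩
  by_cases hy : a.y = 0
  swap
  · exact ⟨⟨0, 0, 0, 0, 0, -1, 0, 0⟩, a.y, hy, by ext <;> simp [mul_def, hn],
      Or.inl (central _ rfl rfl rfl)⟩
  by_cases hz : a.z = 0
  swap
  · exact ⟨⟨0, 0, 0, 0, 1, 0, 0, 0⟩, a.z, hz, by ext <;> simp [mul_def, hn],
      Or.inl (central _ rfl rfl rfl)⟩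
  have hc := central a hx hy hz
  by_cases h1 : a.xy = 0
  swap
  · exact ⟨⟨0, 0, 0, 1, 0, 0, 0, 0⟩, a.xy, h1, by ext <;> simp [mul_def, hn, hx, hy], Or.inr hc⟩
  by_cases h2 : a.xz = 0
  swap
  · exact ⟨⟨0, 0, -1, 0, 0, 0, 0, 0⟩, a.xz, h2, by ext <;> simp [mul_def, hn, hx, hz], Or.inr hc⟩
  by_cases h3 : a.yz = 0
  swap
  · exact ⟨⟨0, 1, 0, 0, 0, 0, 0, 0⟩, a.yz, h3, by ext <;> simp [mul_def, hn, hy, hz], Or.inr hc⟩
  refine ⟨1, a.t, ?_, by ext <;> simp [*], Or.inr hc⟩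
  intro h4
  apply ha
  ext <;> simp [zero_def, *]

def g : T := ⟨0, 3, 0, 0, 1, 0, 0, 0⟩

/-- A centrally essential torsion-free ring of finite rank with an essential right ideal which is
not a left ideal. -/
theorem result : ∃ (R : Type) (_ : Ring R),
    (∀ (n : ℤ) (r : R), n • r = 0 → n = 0 ∨ r = 0) ∧
    Module.Finite ℚ (TensorProduct ℤ ℚ R) ∧ CentrallyEssential R ∧
    ∃ I : Submodule Rᵐᵒᵖ R, EssentialRight I ∧ ∃ r a : R, a ∈ I ∧ r * a ∉ I := by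
  refine ⟨T, inferInstance, ?_, ?_, ?_, Submodule.span _ {g}, ?_, ⟨0, 0, 0, 1, 0, 0, 0, 0⟩, g,
    Submodule.subset_span rfl, ?_⟩
  · intro n r h
    have h1 := congrArg toVec h
    rw [map_zsmul, map_zero, smul_eq_zero] at h1
    exact h1.imp id fun h2 => toVec_inj (by rw [h2, map_zero])
  · have : Module.Finite ℤ T := Module.Finite.of_injective toVec.toIntLinearMap toVec_inj
    infer_instance
  · intro a ha
    obtain ⟨c, m, hm, hc, h | h⟩ := top_mul a ha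
    · refine ⟨c, _, h, central ⟨0, 0, 0, 0, 0, 0, 0, m⟩ rfl rfl rfl, ?_, ?_, hc⟩
      · rintro rfl
        rw [mul_zero] at hc
        exact hm (congrArg T.t hc).symm
      · intro h0
        exact hm (congrArg T.t h0)
    · refine ⟨1, a, Subring.one_mem _, h, ?_, ha, mul_one a⟩
      intro h0
      have := congrArg T.n h0
      simp [one_def, zero_def] at this
  · intro J hJ
    obtain ⟨a, haJ, ha⟩ := (Submodule.ne_bot_iff J).1 hJ
    obtain ⟨c, m, hm, hc, -⟩ := top_mul a ha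
    rw [Submodule.ne_bot_iff]
    refine ⟨⟨0, 0, 0, 0, 0, 0, 0, 3 * m⟩, ⟨?_, ?_⟩, ?_⟩
    · refine Submodule.mem_span_singleton.2 ⟨MulOpposite.op ⟨0, 0, 0, 0, 0, 0, m, 0⟩, ?_⟩
      rw [op_smul_eq_mul]
      ext <;> simp [mul_def, g]
    · have := J.smul_mem (MulOpposite.op (c * ⟨3, 0, 0, 0, 0, 0, 0, 0⟩)) haJ
      rw [op_smul_eq_mul, ← mul_assoc, hc] at this
      have e : (⟨0, 0, 0, 0, 0, 0, 0, 3 * m⟩ : T) =
          ⟨0, 0, 0, 0, 0, 0, 0, m⟩ * ⟨3, 0, 0, 0, 0, 0, 0, 0⟩ := by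
        ext <;> simp [mul_def, mul_comm]
      rw [e]; exact this
    · intro h0
      have := congrArg T.t h0
      simp [zero_def] at this
      exact hm this
  · intro h
    obtain ⟨s, hs⟩ := Submodule.mem_span_singleton.1 h
    rw [← s.op_unop, op_smul_eq_mul] at hs
    have h1 := congrArg T.x hs
    have h2 := congrArg T.xz hs
    have h3 := congrArg T.t hs
    simp [mul_def, g] at h1 h2 h3
    omega

end Pool.Agent.Results.MP_4595ea_al.Counterexample
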